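import Pool.Agent.Lib.MP_0dbebe_co.Dense7
import Pool.Agent.Lib.MP_0dbebe_co.Dense3p
import Pool.Agent.Lib.MP_0dbebe_co.CQ4
import Pool.Agent.Lib.MP_0dbebe_co.CQ5
import Pool.Agent.Lib.MP_0dbebe_co.OneSub.Plus

/-! # The divisible subdivision number, all moduli: `(q - 1) m + n ≤ s_q(H) ≤ (q - 1) m + C' n` for all graphs, with
equality on the left for graphs of large average degree -/

set_option autoImplicit false

namespace Pool.Agent.Results.MP_0dbebe_co.DenseExactAllModuli

open MP0dbebe

/-- The weight of a path, given as the list of its vertices: the sum of the weights of the pairs of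
consecutive vertices. -/
def pathWeight {U : Type*} {q : ℕ} (ω : Sym2 U → ZMod q) (l : List U) : ZMod q :=
  ((l.zip l.tail).map fun p => ω s(p.1, p.2)).sum

/-- `φ` (branch vertices) and `I` (the list of inner vertices of the path of each edge) form a
`q`-divisible subdivision of `H` in the complete graph on `U` with edge weights `ω`. -/
structure IsDivisibleSubdivision {V U : Type*} {q : ℕ} (H : SimpleGraph V) (ω : Sym2 U → ZMod q)
    (φ : V → U) (I : Sym2 V → List U) : Prop where
  injective : Function.Injective φ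
  nodup : ∀ e ∈ H.edgeSet, (I e).Nodup
  avoid : ∀ e ∈ H.edgeSet, ∀ v, φ v ∉ I e
  disjoint : ∀ e ∈ H.edgeSet, ∀ e' ∈ H.edgeSet, e ≠ e' → List.Disjoint (I e) (I e')
  divisible : ∀ e ∈ H.edgeSet, ∃ u v, e = s(u, v) ∧ pathWeight ω (φ u :: (I e ++ [φ v])) = 0

/-- `s_q(H)`: the least `f` such that every `ZMod q`-edge-weighted `K_f` contains a `q`-divisible
subdivision of `H`. -/
noncomputable def divisibleSubdivisionNumber {V : Type*} (H : SimpleGraph V) (q : ℕ) : ℕ :=
  sInf {f : ℕ | ∀ ω : Sym2 (Fin f) → ZMod q,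
    ∃ (φ : V → Fin f) (I : Sym2 V → List (Fin f)), IsDivisibleSubdivision H ω φ I}

theorem pathWeight_one {U : Type*} {q : ℕ} (a : U) (l : List U) :
    pathWeight (q := q) (fun _ => 1) (a :: l) = (l.length : ZMod q) := by
  induction l generalizing a with
  | nil => simp [pathWeight]
  | cons b l ih =>
    have h1 : pathWeight (q := q) (fun _ => 1) (a :: b :: l) =
        1 + pathWeight (q := q) (fun _ => 1) (b :: l) := by simp [pathWeight]
    rw [h1, ih]
    push_cast [List.length_cons]
    ring

open Classical in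
theorem dense_model (q : ℕ) (hq : 2 ≤ q) :
    ∃ C : ℕ, (q = 2 → C = 10 ^ 23) ∧
      ∀ (V α : Type) [Fintype V] [Fintype α] (w : α → α → ZMod q),
      (∀ a b, w a b = w b a) → ∀ H : SimpleGraph V, 1 ≤ Fintype.card V →
      Fintype.card α = (q - 1) * (EE H Finset.univ).card + Fintype.card V →
      C * Fintype.card V ≤ (EE H Finset.univ).card →
      HasModel w (EE H Finset.univ) Finset.univ Finset.univ := by
  rcases Nat.lt_or_ge q 4 with hlt | hge
  · obtain rfl | rfl : q = 2 ∨ q = 3 := by omega
    · refine ⟨10 ^ 23, fun _ => rfl, ?_⟩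
      intro V α _ _ w hw H hn ha hE
      exact dense_two hw H hn (by rw [ha]; omega) hE
    · refine ⟨denseC 3, fun h => absurd h (by norm_num), ?_⟩
      intro V α _ _ w hw H hn ha hE
      exact dense_three hw H hn ha hE
  · have hF : Fact (1 < q) := ⟨by omega⟩
    obtain ⟨C, hC⟩ := dense_of_claimN hge (claimN q hge)
    refine ⟨C, fun h => by omega, ?_⟩
    intro V α _ _ w hw H hn ha hE
    exact hC V α w hw H hn ha hE

/-- the numbers `f` such that every weighting of `K_f` contains a divisible subdivision of `H` -/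
private def good {V : Type} (H : SimpleGraph V) (q : ℕ) : Set ℕ :=
  {f : ℕ | ∀ ω : Sym2 (Fin f) → ZMod q,
    ∃ (φ : V → Fin f) (I : Sym2 V → List (Fin f)), IsDivisibleSubdivision H ω φ I}

private theorem num_eq {V : Type} (H : SimpleGraph V) (q : ℕ) :
    divisibleSubdivisionNumber H q = sInf (good H q) := rfl

/-- the upper bound for graphs of large average degree -/
private theorem dense (q : ℕ) (hq : 2 ≤ q) : ∃ C : ℕ, (q = 2 → C = 10 ^ 23) ∧
    ∀ (V : Type) [Finite V] (H : SimpleGraph V), C * Nat.card V ≤ H.edgeSet.ncard →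
      (q - 1) * H.edgeSet.ncard + Nat.card V ∈ good H q := by
  obtain ⟨C, hC2, hC⟩ := dense_model q hq
  refine ⟨C, hC2, ?_⟩
  intro V _ H hd
  classical
  have : Fintype V := Fintype.ofFinite V
  have hEu : (EE H Finset.univ).card = H.edgeSet.ncard := by
    rw [← Set.ncard_coe_finset]
    congr 1
    ext e
    rw [Finset.mem_coe, mem_EE]
    simp
  have hmemE : ∀ e, e ∈ H.edgeSet ↔ e ∈ EE H Finset.univ := by
    intro e; rw [mem_EE]; simp
  intro ω
  rcases isEmpty_or_nonempty V with hV | hV
  · have hno : ∀ e, e ∉ H.edgeSet := by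
      intro e
      induction e using Sym2.ind with
      | _ u v => exact isEmptyElim u
    exact ⟨fun v => isEmptyElim v, fun _ => [], fun v => isEmptyElim v,
      fun e he => absurd he (hno e), fun e he => absurd he (hno e),
      fun e he => absurd he (hno e), fun e he => absurd he (hno e)⟩
  obtain ⟨φ, I, m⟩ := hC V _ (fun a b => ω s(a, b))
    (fun a b => by rw [Sym2.eq_swap]) H Fintype.card_pos (by
      rw [hEu, Fintype.card_fin, Nat.card_eq_fintype_card]) (by
      rw [hEu, ← Nat.card_eq_fintype_card]; exact hd)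
  refine ⟨φ, I, ?_, ?_, ?_, ?_, ?_⟩
  · intro a b hab
    exact m.inj a (Finset.mem_univ _) b (Finset.mem_univ _) hab
  · intro e he
    exact m.nodup e ((hmemE e).1 he)
  · intro e he v
    exact m.avoid e ((hmemE e).1 he) v (Finset.mem_univ _)
  · intro e he e' he' hne a ha ha'
    exact m.disj e ((hmemE e).1 he) e' ((hmemE e').1 he') hne a ha ha'
  · intro e he
    exact m.div e ((hmemE e).1 he)

/-- the lower bound -/
private theorem lower {V : Type} [Finite V] (H : SimpleGraph V) {q : ℕ} (hq : 2 ≤ q) {f : ℕ}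
    (hf : f ∈ good H q) : (q - 1) * H.edgeSet.ncard + Nat.card V ≤ f := by
  classical
  have : Fintype V := Fintype.ofFinite V
  have hEu : (EE H Finset.univ).card = H.edgeSet.ncard := by
    rw [← Set.ncard_coe_finset]
    congr 1
    ext e
    rw [Finset.mem_coe, mem_EE]
    simp
  have hmemE : ∀ e, e ∈ H.edgeSet ↔ e ∈ EE H Finset.univ := by
    intro e; rw [mem_EE]; simp
  obtain ⟨φ, I, h⟩ := hf (fun _ => 1)
  have hlen : ∀ e ∈ H.edgeSet, q - 1 ≤ (I e).length := by
    intro e he
    obtain ⟨u, v, -, h0⟩ := h.divisible e he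
    rw [pathWeight_one] at h0
    rw [List.length_append, List.length_singleton] at h0
    have := (ZMod.natCast_eq_zero_iff _ _).1 h0
    have := Nat.le_of_dvd (by omega) this
    omega
  let T : Finset (Fin f) := Finset.univ.image φ ∪
    (EE H Finset.univ).biUnion (fun e => (I e).toFinset)
  have hd' : Disjoint (Finset.univ.image φ)
      ((EE H Finset.univ).biUnion (fun e => (I e).toFinset)) := by
    rw [Finset.disjoint_left]
    intro a ha hb
    rw [Finset.mem_image] at ha
    obtain ⟨v, -, rfl⟩ := ha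
    rw [Finset.mem_biUnion] at hb
    obtain ⟨e, he, h2⟩ := hb
    rw [List.mem_toFinset] at h2
    exact h.avoid e ((hmemE e).2 he) v h2
  have hTc : T.card ≤ f := by
    have := Finset.card_le_univ T
    rwa [Fintype.card_fin] at this
  have h1 : T.card = (Finset.univ.image φ).card +
      ((EE H Finset.univ).biUnion (fun e => (I e).toFinset)).card :=
    Finset.card_union_of_disjoint hd'
  have h2 : (Finset.univ.image φ).card = Nat.card V := by
    rw [Finset.card_image_of_injective _ h.injective, Finset.card_univ,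
      Nat.card_eq_fintype_card]
  have h3 : ((EE H Finset.univ).biUnion (fun e => (I e).toFinset)).card =
      ∑ e ∈ EE H Finset.univ, (I e).toFinset.card := by
    apply Finset.card_biUnion
    intro e he e' he' hne
    change Disjoint (I e).toFinset (I e').toFinset
    rw [Finset.disjoint_left]
    intro a ha ha'
    rw [List.mem_toFinset] at ha ha'
    exact h.disjoint e ((hmemE e).2 he) e' ((hmemE e').2 he') hne ha ha'
  have h4 : (EE H Finset.univ).card * (q - 1) ≤ ∑ e ∈ EE H Finset.univ, (I e).toFinset.card := by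
    rw [← smul_eq_mul]
    apply Finset.card_nsmul_le_sum
    intro e he
    rw [List.toFinset_card_of_nodup (h.nodup e ((hmemE e).2 he))]
    exact hlen e ((hmemE e).2 he)
  rw [hEu, mul_comm] at h4
  omega

/-- subgraphs need no more vertices -/
private theorem mono {V V' : Type} {H : SimpleGraph V} {H' : SimpleGraph V'} {q : ℕ} (i : V → V')
    (hi : Function.Injective i) (hadj : ∀ u v, H.Adj u v → H'.Adj (i u) (i v)) {f : ℕ}
    (hf : f ∈ good H' q) : f ∈ good H q := by
  intro ω
  obtain ⟨φ, I, h⟩ := hf ω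
  have hmem : ∀ e ∈ H.edgeSet, Sym2.map i e ∈ H'.edgeSet := by
    intro e
    induction e using Sym2.ind with
    | _ u v => exact fun he => hadj u v he
  refine ⟨φ ∘ i, I ∘ Sym2.map i, h.injective.comp hi,
    fun e he => h.nodup _ (hmem e he), fun e he v => h.avoid _ (hmem e he) (i v),
    fun e he e' he' hne => h.disjoint _ (hmem e he) _ (hmem e' he') fun e2 => hne (Sym2.map.injective hi e2), ?_⟩
  intro e he
  obtain ⟨u', v', h1, h2⟩ := h.divisible _ (hmem e he)
  revert he h1 h2
  induction e using Sym2.ind with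
  | _ u v =>
    intro he h1 h2
    rw [Sym2.map_mk] at h1
    rcases Sym2.eq_iff.1 h1 with ⟨h3, h4⟩ | ⟨h3, h4⟩
    · refine ⟨u, v, rfl, ?_⟩
      rw [← h3, ← h4] at h2
      exact h2
    · refine ⟨v, u, Sym2.eq_swap, ?_⟩
      rw [← h3, ← h4] at h2
      exact h2

/-- **All graphs, all moduli.** For every `q ≥ 2` there are `C` and `C'` such that
`(q - 1) m + n ≤ s_q(H) ≤ (q - 1) m + C' n` for every finite graph `H` with `n` vertices and `m` edges, and
`s_q(H) = (q - 1) m + n` if `m ≥ C n`. For `q = 2` one can take `C = 10 ^ 23`. -/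
theorem result (q : ℕ) (hq : 2 ≤ q) : ∃ C C' : ℕ, (q = 2 → C = 10 ^ 23) ∧
    ∀ (V : Type) [Finite V] (H : SimpleGraph V),
      (q - 1) * H.edgeSet.ncard + Nat.card V ≤ divisibleSubdivisionNumber H q ∧
      divisibleSubdivisionNumber H q ≤ (q - 1) * H.edgeSet.ncard + C' * Nat.card V ∧
      (C * Nat.card V ≤ H.edgeSet.ncard →
        divisibleSubdivisionNumber H q = (q - 1) * H.edgeSet.ncard + Nat.card V) := by
  obtain ⟨C, hC2, hdense⟩ := dense q hq
  refine ⟨C, (q - 1) * (2 * C * (4 * C + 1)) + (4 * C + 2), hC2, ?_⟩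
  intro V _ H
  have hcard : Nat.card (V ⊕ V × Fin (4 * C + 1)) = Nat.card V + Nat.card V * (4 * C + 1) := by
    rw [Nat.card_sum, Nat.card_prod, Nat.card_eq_fintype_card (α := Fin (4 * C + 1)), Fintype.card_fin]
  have hm : (Pool.Agent.Lib.MP_0dbebe_co.OneSub.plus H (4 * C + 1)).edgeSet.ncard =
      H.edgeSet.ncard + Nat.card V * (2 * C * (4 * C + 1)) := by
    have h1 := Pool.Agent.Lib.MP_0dbebe_co.OneSub.ncard_plus H (4 * C + 1)
    rw [Nat.add_sub_cancel] at h1
    have h2 : Nat.card V * ((4 * C + 1) * (4 * C)) = 2 * (Nat.card V * (2 * C * (4 * C + 1))) := by ring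
    omega
  have hgood : (q - 1) * (H.edgeSet.ncard + Nat.card V * (2 * C * (4 * C + 1))) +
      (Nat.card V + Nat.card V * (4 * C + 1)) ∈ good H q := by
    have h0 := hdense (V ⊕ V × Fin (4 * C + 1)) (Pool.Agent.Lib.MP_0dbebe_co.OneSub.plus H (4 * C + 1)) (by
      rw [hcard, hm]
      have h3 : C * (Nat.card V + Nat.card V * (4 * C + 1)) = Nat.card V * (4 * (C * C) + 2 * C) := by ring
      have h4 : Nat.card V * (2 * C * (4 * C + 1)) = Nat.card V * (8 * (C * C) + 2 * C) := by ring
      rw [h3, h4]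
      have h5 : Nat.card V * (4 * (C * C) + 2 * C) ≤ Nat.card V * (8 * (C * C) + 2 * C) :=
        Nat.mul_le_mul_left _ (by omega)
      omega)
    rw [hcard, hm] at h0
    exact mono Sum.inl Sum.inl_injective
      (fun u v h => Pool.Agent.Lib.MP_0dbebe_co.OneSub.plus_inl H _ h) h0
  have hlow : (q - 1) * H.edgeSet.ncard + Nat.card V ≤ divisibleSubdivisionNumber H q :=
    le_csInf ⟨_, hgood⟩ fun f hf => lower H hq hf
  refine ⟨hlow, ?_, fun hd => le_antisymm (Nat.sInf_le (hdense V H hd)) hlow⟩
  refine (Nat.sInf_le hgood).trans (le_of_eq ?_)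
  ring

end Pool.Agent.Results.MP_0dbebe_co.DenseExactAllModuli
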