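import Pool.Agent.Lib.MP_0dbebe_co.OneSub.Core
import Pool.Agent.Lib.MP_0dbebe_co.OneSub.Plus

/-! # One-subdivisions: `m + n ≤ s_2(H, 1) ≤ max(m, C n) + n` for all graphs, with equality for `m ≥ C n` -/

set_option autoImplicit false

namespace Pool.Agent.Results.MP_0dbebe_co.OneSubdivisionDense

open Pool.Agent.Lib.MP_0dbebe_co.OneSub

/-- The weight of a path, given as the list of its vertices: the sum of the weights of the pairs of
consecutive vertices. -/
def pathWeight {U : Type*} {q : ℕ} (ω : Sym2 U → ZMod q) (l : List U) : ZMod q :=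
  ((l.zip l.tail).map fun p => ω s(p.1, p.2)).sum

/-- `φ` (branch vertices) and `I` (the list of inner vertices of the path of each edge) form a
`q`-divisible `t`-subdivision of `H` in the complete graph on `U` with edge weights `ω`: the path of
each edge has exactly `t` inner vertices (length `t + 1`), and its weight is `0`. -/
structure IsDivisibleTSubdivision {V U : Type*} {q : ℕ} (H : SimpleGraph V) (ω : Sym2 U → ZMod q)
    (t : ℕ) (φ : V → U) (I : Sym2 V → List U) : Prop where
  injective : Function.Injective φ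
  length : ∀ e ∈ H.edgeSet, (I e).length = t
  nodup : ∀ e ∈ H.edgeSet, (I e).Nodup
  avoid : ∀ e ∈ H.edgeSet, ∀ v, φ v ∉ I e
  disjoint : ∀ e ∈ H.edgeSet, ∀ e' ∈ H.edgeSet, e ≠ e' → List.Disjoint (I e) (I e')
  divisible : ∀ e ∈ H.edgeSet, ∃ u v, e = s(u, v) ∧ pathWeight ω (φ u :: (I e ++ [φ v])) = 0

/-- `s_q(H, t)`: the least `f` such that every `ZMod q`-edge-weighted `K_f` contains a `q`-divisible
`t`-subdivision of `H`. -/
noncomputable def divisibleTSubdivisionNumber {V : Type*} (H : SimpleGraph V) (q t : ℕ) : ℕ :=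
  sInf {f : ℕ | ∀ ω : Sym2 (Fin f) → ZMod q,
    ∃ (φ : V → Fin f) (I : Sym2 V → List (Fin f)), IsDivisibleTSubdivision H ω t φ I}

theorem zmod_two_add_eq_zero (a b : ZMod 2) (h : (decide (a = 1)) = decide (b = 1)) :
    a + b = 0 := by
  revert a b
  decide

/-- the numbers `f` such that every weighting of `K_f` contains a divisible 1-subdivision of `H` -/
private def good {V : Type} (H : SimpleGraph V) : Set ℕ :=
  {f : ℕ | ∀ ω : Sym2 (Fin f) → ZMod 2,
    ∃ (φ : V → Fin f) (I : Sym2 V → List (Fin f)), IsDivisibleTSubdivision H ω 1 φ I}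

private theorem num_eq {V : Type} (H : SimpleGraph V) : divisibleTSubdivisionNumber H 2 1 = sInf (good H) := rfl

/-- the theorem for graphs of large average degree -/
private theorem dense : ∃ C : ℕ, 1 ≤ C ∧ ∀ (V : Type) [Finite V] (H : SimpleGraph V),
    C * Nat.card V ≤ H.edgeSet.ncard → H.edgeSet.ncard + Nat.card V ∈ good H := by
  obtain ⟨C, hC, hcore⟩ := core
  refine ⟨C, hC, ?_⟩
  intro V _ H hd
  classical
  have : Fintype V := Fintype.ofFinite V
  have hEu : (E H).card = H.edgeSet.ncard := by
    rw [← Set.ncard_coe_finset]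
    congr 1
    ext e
    rw [Finset.mem_coe, mem_E]
  intro ω
  rcases Nat.eq_zero_or_pos H.edgeSet.ncard with h0 | h1
  · have hno : ∀ e, e ∉ H.edgeSet := by
      intro e he
      have : H.edgeSet = ∅ := (Set.ncard_eq_zero (Set.toFinite _)).1 h0
      rw [this] at he
      exact he
    have hc : Fintype.card V = H.edgeSet.ncard + Nat.card V := by
      rw [h0, Nat.card_eq_fintype_card, zero_add]
    exact ⟨Fintype.equivFinOfCardEq hc, fun _ => [], (Fintype.equivFinOfCardEq hc).injective,
      fun e he => absurd he (hno e), fun e he => absurd he (hno e),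
      fun e he => absurd he (hno e), fun e he => absurd he (hno e),
      fun e he => absurd he (hno e)⟩
  · obtain ⟨φ, ψ, hφ, hψ, hdis, hcol⟩ := hcore V H (Fin (H.edgeSet.ncard + Nat.card V))
      (fun u x => decide (ω s(u, x) = 1)) (by
        rw [Fintype.card_fin, hEu, Nat.card_eq_fintype_card]) (by rw [hEu]; exact h1)
      (by rw [hEu, ← Nat.card_eq_fintype_card]; exact hd)
    refine ⟨φ, fun e => if h : e ∈ H.edgeSet then [ψ ⟨e, h⟩] else [], hφ, ?_, ?_, ?_, ?_, ?_⟩
    · intro e he
      rw [dif_pos he]
      rfl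
    · intro e he
      rw [dif_pos he]
      exact List.nodup_singleton _
    · intro e he v
      rw [dif_pos he, List.mem_singleton]
      exact fun h => hdis _ _ h.symm
    · intro e he e' he' hne
      rw [dif_pos he, dif_pos he']
      intro a ha ha'
      rw [List.mem_singleton] at ha ha'
      have h2 := hψ (ha.symm.trans ha')
      exact hne (congrArg Subtype.val h2)
    · intro e he
      revert he
      induction e using Sym2.ind with
      | _ u v =>
        intro he
        refine ⟨u, v, rfl, ?_⟩
        have h2 := hcol ⟨s(u, v), he⟩ u v rfl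
        have h3 := zmod_two_add_eq_zero _ _ h2
        rw [dif_pos he]
        simp only [pathWeight, List.cons_append, List.nil_append, List.tail_cons,
          List.zip_cons_cons, List.zip_nil_right, List.map_cons, List.map_nil, List.sum_cons,
          List.sum_nil, add_zero]
        rw [Sym2.eq_swap (a := ψ ⟨s(u, v), he⟩) (b := φ v)]
        exact h3

/-- the lower bound -/
private theorem lower {V : Type} [Finite V] (H : SimpleGraph V) {f : ℕ} (hf : f ∈ good H) :
    H.edgeSet.ncard + Nat.card V ≤ f := by
  classical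
  have : Fintype V := Fintype.ofFinite V
  have hEu : (E H).card = H.edgeSet.ncard := by
    rw [← Set.ncard_coe_finset]
    congr 1
    ext e
    rw [Finset.mem_coe, mem_E]
  obtain ⟨φ, I, h⟩ := hf (fun _ => 0)
  let T : Finset (Fin f) := Finset.univ.image φ ∪ (E H).biUnion (fun e => (I e).toFinset)
  have hd' : Disjoint (Finset.univ.image φ) ((E H).biUnion (fun e => (I e).toFinset)) := by
    rw [Finset.disjoint_left]
    intro a ha hb
    rw [Finset.mem_image] at ha
    obtain ⟨v, -, rfl⟩ := ha
    rw [Finset.mem_biUnion] at hb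
    obtain ⟨e, he, h2⟩ := hb
    rw [List.mem_toFinset] at h2
    exact h.avoid e (mem_E.1 he) v h2
  have hTc : T.card ≤ f := by
    have := Finset.card_le_univ T
    rwa [Fintype.card_fin] at this
  have h1 : T.card = (Finset.univ.image φ).card +
      ((E H).biUnion (fun e => (I e).toFinset)).card :=
    Finset.card_union_of_disjoint hd'
  have h2 : (Finset.univ.image φ).card = Nat.card V := by
    rw [Finset.card_image_of_injective _ h.injective, Finset.card_univ,
      Nat.card_eq_fintype_card]
  have h3 : ((E H).biUnion (fun e => (I e).toFinset)).card =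
      ∑ e ∈ E H, (I e).toFinset.card := by
    apply Finset.card_biUnion
    intro e he e' he' hne
    change Disjoint (I e).toFinset (I e').toFinset
    rw [Finset.disjoint_left]
    intro a ha ha'
    rw [List.mem_toFinset] at ha ha'
    exact h.disjoint e (mem_E.1 he) e' (mem_E.1 he') hne ha ha'
  have h4 : ∑ e ∈ E H, (I e).toFinset.card = (E H).card := by
    rw [Finset.card_eq_sum_ones]
    apply Finset.sum_congr rfl
    intro e he
    rw [List.toFinset_card_of_nodup (h.nodup e (mem_E.1 he)), h.length e (mem_E.1 he)]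
  omega

/-- subgraphs need no more vertices -/
private theorem mono {V V' : Type} {H : SimpleGraph V} {H' : SimpleGraph V'} (i : V → V')
    (hi : Function.Injective i) (hadj : ∀ u v, H.Adj u v → H'.Adj (i u) (i v)) {f : ℕ} (hf : f ∈ good H') :
    f ∈ good H := by
  intro ω
  obtain ⟨φ, I, h⟩ := hf ω
  have hmem : ∀ e ∈ H.edgeSet, Sym2.map i e ∈ H'.edgeSet := by
    intro e
    induction e using Sym2.ind with
    | _ u v => exact fun he => hadj u v he
  refine ⟨φ ∘ i, I ∘ Sym2.map i, h.injective.comp hi, fun e he => h.length _ (hmem e he),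
    fun e he => h.nodup _ (hmem e he), fun e he v => h.avoid _ (hmem e he) (i v),
    fun e he e' he' hne => h.disjoint _ (hmem e he) _ (hmem e' he') fun e2 => hne (Sym2.map.injective hi e2), ?_⟩
  intro e he
  obtain ⟨u', v', h1, h2⟩ := h.divisible _ (hmem e he)
  revert he h1 h2
  induction e using Sym2.ind with
  | _ u v =>
    intro he h1 h2
    rw [Sym2.map_mk] at h1
    rcases Sym2.eq_iff.1 h1 with ⟨h3, h4⟩ | ⟨h3, h4⟩
    · refine ⟨u, v, rfl, ?_⟩
      rw [← h3, ← h4] at h2
      exact h2
    · refine ⟨v, u, Sym2.eq_swap, ?_⟩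
      rw [← h3, ← h4] at h2
      exact h2

/-- **Theorem.** There is a constant `C` such that `m + n ≤ s_2(H, 1) ≤ max(m, C n) + n` for every finite graph `H`
with `n` vertices and `m` edges; in particular `s_2(H, 1) = m + n` if `m ≥ C n`. -/
theorem result : ∃ C : ℕ, ∀ (V : Type) [Finite V] (H : SimpleGraph V),
    H.edgeSet.ncard + Nat.card V ≤ divisibleTSubdivisionNumber H 2 1 ∧
      divisibleTSubdivisionNumber H 2 1 ≤ max H.edgeSet.ncard (C * Nat.card V) + Nat.card V := by
  obtain ⟨C, hC, hdense⟩ := dense
  refine ⟨C + (2 * C + 1) * (4 * C + 1), ?_⟩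
  intro V _ H
  have hcard : Nat.card (V ⊕ V × Fin (4 * C + 1)) = Nat.card V + Nat.card V * (4 * C + 1) := by
    rw [Nat.card_sum, Nat.card_prod, Nat.card_eq_fintype_card (α := Fin (4 * C + 1)), Fintype.card_fin]
  have hm : (plus H (4 * C + 1)).edgeSet.ncard = H.edgeSet.ncard + Nat.card V * (2 * C * (4 * C + 1)) := by
    have h1 := ncard_plus H (4 * C + 1)
    rw [Nat.add_sub_cancel] at h1
    have h2 : Nat.card V * ((4 * C + 1) * (4 * C)) = 2 * (Nat.card V * (2 * C * (4 * C + 1))) := by ring
    omega
  have hgood : (plus H (4 * C + 1)).edgeSet.ncard + Nat.card (V ⊕ V × Fin (4 * C + 1)) ∈ good H := by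
    refine mono Sum.inl Sum.inl_injective (fun u v h => plus_inl H _ h) (hdense _ _ ?_)
    rw [hcard, hm]
    have h3 : C * (Nat.card V + Nat.card V * (4 * C + 1)) = Nat.card V * (4 * (C * C) + 2 * C) := by ring
    have h4 : Nat.card V * (2 * C * (4 * C + 1)) = Nat.card V * (8 * (C * C) + 2 * C) := by ring
    rw [h3, h4]
    have h5 : Nat.card V * (4 * (C * C) + 2 * C) ≤ Nat.card V * (8 * (C * C) + 2 * C) :=
      Nat.mul_le_mul_left _ (by omega)
    omega
  refine ⟨le_csInf ⟨_, hgood⟩ fun f hf => lower H hf, ?_⟩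
  rw [num_eq]
  rcases le_total (C * Nat.card V) H.edgeSet.ncard with h | h
  · refine (Nat.sInf_le (hdense V H h)).trans ?_
    exact Nat.add_le_add_right (le_max_left _ _) _
  · refine (Nat.sInf_le hgood).trans ?_
    rw [hm, hcard]
    have h6 : (C + (2 * C + 1) * (4 * C + 1)) * Nat.card V =
        C * Nat.card V + Nat.card V * (2 * C * (4 * C + 1)) + Nat.card V * (4 * C + 1) := by ring
    have h7 := le_max_right H.edgeSet.ncard ((C + (2 * C + 1) * (4 * C + 1)) * Nat.card V)
    rw [h6] at h7 ⊢
    omega

end Pool.Agent.Results.MP_0dbebe_co.OneSubdivisionDense
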