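import Pool.Agent.Lib.MP_0dbebe_co.Forest

/-! # Exact divisible subdivision numbers of pseudoforests -/

set_option autoImplicit false

namespace Pool.Agent.Results.MP_0dbebe_co.Pseudoforests

open MP0dbebe

/-- The weight of a path, given as the list of its vertices: the sum of the weights of the pairs of
consecutive vertices. -/
def pathWeight {U : Type*} {q : ℕ} (ω : Sym2 U → ZMod q) (l : List U) : ZMod q :=
  ((l.zip l.tail).map fun p => ω s(p.1, p.2)).sum

/-- `φ` (branch vertices) and `I` (the list of inner vertices of the path of each edge) form a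
`q`-divisible subdivision of `H` in the complete graph on `U` with edge weights `ω`. -/
structure IsDivisibleSubdivision {V U : Type*} {q : ℕ} (H : SimpleGraph V) (ω : Sym2 U → ZMod q)
    (φ : V → U) (I : Sym2 V → List U) : Prop where
  injective : Function.Injective φ
  nodup : ∀ e ∈ H.edgeSet, (I e).Nodup
  avoid : ∀ e ∈ H.edgeSet, ∀ v, φ v ∉ I e
  disjoint : ∀ e ∈ H.edgeSet, ∀ e' ∈ H.edgeSet, e ≠ e' → List.Disjoint (I e) (I e')
  divisible : ∀ e ∈ H.edgeSet, ∃ u v, e = s(u, v) ∧ pathWeight ω (φ u :: (I e ++ [φ v])) = 0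

section
variable {V : Type*} [Fintype V]

open Classical in
theorem exists_orientation (H : SimpleGraph V)
    (hH : ∀ X : Finset V, (EE H X).card ≤ X.card) :
    ∃ g : V → V, ∀ a b, H.Adj a b → g a = b ∨ g b = a := by
  have hall : ∀ s : Finset H.edgeSet,
      s.card ≤ (s.biUnion (fun e => Finset.univ.filter (fun v => v ∈ e.1))).card := by
    intro s
    refine le_trans ?_ (hH _)
    apply Finset.card_le_card_of_injOn (fun e => e.1)
    · intro e he
      rw [Finset.mem_coe, mem_EE]
      refine ⟨fun v hv => ?_, e.2⟩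
      rw [Finset.mem_biUnion]
      exact ⟨e, he, by simpa using hv⟩
    · intro a _ b _ hab
      exact Subtype.ext hab
  obtain ⟨f, hf, hf2⟩ := (Finset.all_card_le_biUnion_card_iff_exists_injective _).1 hall
  have hf3 : ∀ e : H.edgeSet, f e ∈ e.1 := fun e => by simpa using hf2 e
  refine ⟨fun v => if h : ∃ b, ∃ hb : s(v, b) ∈ H.edgeSet, f ⟨s(v, b), hb⟩ = v then
    h.choose else v, ?_⟩
  intro a b hab
  have key : ∀ c d (hcd : s(c, d) ∈ H.edgeSet), f ⟨s(c, d), hcd⟩ = c →
      (if h : ∃ b, ∃ hb : s(c, b) ∈ H.edgeSet, f ⟨s(c, b), hb⟩ = c then h.choose else c) = d := by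
    intro c d hcd hfc
    have hex : ∃ b, ∃ hb : s(c, b) ∈ H.edgeSet, f ⟨s(c, b), hb⟩ = c := ⟨d, hcd, hfc⟩
    rw [dif_pos hex]
    obtain ⟨hb, hb2⟩ := hex.choose_spec
    have h1 := hf (hb2.trans hfc.symm)
    have h3 := congrArg Subtype.val h1
    exact Sym2.congr_right.1 h3
  have he : s(a, b) ∈ H.edgeSet := hab
  have hm := hf3 ⟨s(a, b), he⟩
  rw [Sym2.mem_iff] at hm
  rcases hm with hm | hm
  · exact Or.inl (key a b he hm)
  · right
    have he' : s(b, a) ∈ H.edgeSet := hab.symm
    have : f ⟨s(b, a), he'⟩ = b := by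
      have e1 : (⟨s(b, a), he'⟩ : H.edgeSet) = ⟨s(a, b), he⟩ := Subtype.ext Sym2.eq_swap
      rw [e1]; exact hm
    exact key b a he' this

theorem pathWeight_one {U : Type*} {q : ℕ} (a : U) (l : List U) :
    pathWeight (q := q) (fun _ => 1) (a :: l) = (l.length : ZMod q) := by
  induction l generalizing a with
  | nil => simp [pathWeight]
  | cons b l ih =>
    have h1 : pathWeight (q := q) (fun _ => 1) (a :: b :: l) =
        1 + pathWeight (q := q) (fun _ => 1) (b :: l) := by simp [pathWeight]
    rw [h1, ih]
    push_cast [List.length_cons]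
    ring

end

/-- For every `q ≥ 2` and every pseudoforest `H` (every set `X` of vertices spans at most `|X|`
edges) with `n` vertices and `m` edges, `s_q(H) = m (q - 1) + n`. -/
theorem result {V : Type} [Finite V] (H : SimpleGraph V)
    (hH : ∀ X : Set V, {e ∈ H.edgeSet | ∀ v ∈ e, v ∈ X}.ncard ≤ X.ncard) (q : ℕ) (hq : 2 ≤ q) :
    IsLeast {f : ℕ | ∀ ω : Sym2 (Fin f) → ZMod q,
        ∃ (φ : V → Fin f) (I : Sym2 V → List (Fin f)), IsDivisibleSubdivision H ω φ I}
      (H.edgeSet.ncard * (q - 1) + Nat.card V) := by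
  classical
  have : Fintype V := Fintype.ofFinite V
  have hE : ∀ X : Finset V, (EE H X).card ≤ X.card := by
    intro X
    have h1 := hH (X : Set V)
    rw [Set.ncard_coe_finset] at h1
    rw [← Set.ncard_coe_finset]
    refine le_trans (le_of_eq ?_) h1
    congr 1
    ext e
    rw [Finset.mem_coe, mem_EE, Set.mem_ofPred_eq]
    constructor
    · rintro ⟨h2, h3⟩; exact ⟨h3, fun v hv => Finset.mem_coe.2 (h2 v hv)⟩
    · rintro ⟨h2, h3⟩; exact ⟨fun v hv => Finset.mem_coe.1 (h3 v hv), h2⟩
  obtain ⟨g, hg⟩ := exists_orientation H hE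
  have hEu : (EE H Finset.univ).card = H.edgeSet.ncard := by
    rw [← Set.ncard_coe_finset]
    congr 1
    ext e
    rw [Finset.mem_coe, mem_EE]
    simp
  have hmemE : ∀ e, e ∈ H.edgeSet ↔ e ∈ EE H Finset.univ := by
    intro e; rw [mem_EE]; simp
  have : NeZero q := ⟨by omega⟩
  constructor
  · intro ω
    rcases isEmpty_or_nonempty V with hV | hV
    · refine ⟨fun v => isEmptyElim v, fun _ => [], ?_⟩
      have hno : ∀ e, e ∉ H.edgeSet := by
        intro e
        induction e using Sym2.ind with
        | _ a b => exact isEmptyElim a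
      exact ⟨fun a => isEmptyElim a, fun e he => absurd he (hno e), fun e he => absurd he (hno e),
        fun e he => absurd he (hno e), fun e he => absurd he (hno e)⟩
    have hcV : 0 < Nat.card V := Nat.card_pos
    have : Nonempty (Fin (H.edgeSet.ncard * (q - 1) + Nat.card V)) := ⟨⟨0, by omega⟩⟩
    obtain ⟨φ, I, m⟩ := upper (G := ZMod q) (fun a b => ω s(a, b)) (fun a b => by rw [Sym2.eq_swap])
      H g hg Finset.univ
      (Finset.univ : Finset (Fin (H.edgeSet.ncard * (q - 1) + Nat.card V))) (by
        rw [Nat.card_zmod, Finset.card_univ, Finset.card_univ, Fintype.card_fin, hEu,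
          Nat.card_eq_fintype_card])
    refine ⟨φ, I, ?_, ?_, ?_, ?_, ?_⟩
    · intro a b hab
      exact m.inj a (Finset.mem_univ _) b (Finset.mem_univ _) hab
    · intro e he
      exact m.nodup e ((hmemE e).1 he)
    · intro e he v
      exact m.avoid e ((hmemE e).1 he) v (Finset.mem_univ _)
    · intro e he e' he' hne a ha ha'
      exact m.disj e ((hmemE e).1 he) e' ((hmemE e').1 he') hne a ha ha'
    · intro e he
      exact m.div e ((hmemE e).1 he)
  · intro f hf
    obtain ⟨φ, I, h⟩ := hf (fun _ => 1)
    have hlen : ∀ e ∈ H.edgeSet, q - 1 ≤ (I e).length := by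
      intro e he
      obtain ⟨u, v, -, h0⟩ := h.divisible e he
      rw [pathWeight_one] at h0
      rw [List.length_append, List.length_singleton] at h0
      have := (ZMod.natCast_eq_zero_iff _ _).1 h0
      have := Nat.le_of_dvd (by omega) this
      omega
    let T : Finset (Fin f) := Finset.univ.image φ ∪
      (EE H Finset.univ).biUnion (fun e => (I e).toFinset)
    have hd : Disjoint (Finset.univ.image φ)
        ((EE H Finset.univ).biUnion (fun e => (I e).toFinset)) := by
      rw [Finset.disjoint_left]
      intro a ha hb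
      rw [Finset.mem_image] at ha
      obtain ⟨v, -, rfl⟩ := ha
      rw [Finset.mem_biUnion] at hb
      obtain ⟨e, he, h2⟩ := hb
      rw [List.mem_toFinset] at h2
      exact h.avoid e ((hmemE e).2 he) v h2
    have hTc : T.card ≤ f := by
      have := Finset.card_le_univ T
      rwa [Fintype.card_fin] at this
    have h1 : T.card = (Finset.univ.image φ).card +
        ((EE H Finset.univ).biUnion (fun e => (I e).toFinset)).card :=
      Finset.card_union_of_disjoint hd
    have h2 : (Finset.univ.image φ).card = Nat.card V := by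
      rw [Finset.card_image_of_injective _ h.injective, Finset.card_univ,
        Nat.card_eq_fintype_card]
    have h3 : ((EE H Finset.univ).biUnion (fun e => (I e).toFinset)).card =
        ∑ e ∈ EE H Finset.univ, (I e).toFinset.card := by
      apply Finset.card_biUnion
      intro e he e' he' hne
      change Disjoint (I e).toFinset (I e').toFinset
      rw [Finset.disjoint_left]
      intro a ha ha'
      rw [List.mem_toFinset] at ha ha'
      exact h.disjoint e ((hmemE e).2 he) e' ((hmemE e').2 he') hne ha ha'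
    have h4 : (EE H Finset.univ).card * (q - 1) ≤ ∑ e ∈ EE H Finset.univ, (I e).toFinset.card := by
      rw [← smul_eq_mul]
      apply Finset.card_nsmul_le_sum
      intro e he
      rw [List.toFinset_card_of_nodup (h.nodup e ((hmemE e).2 he))]
      exact hlen e ((hmemE e).2 he)
    rw [hEu] at h4
    omega

end Pool.Agent.Results.MP_0dbebe_co.Pseudoforests
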