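import Pool.Agent.Lib.MP_0dbebe_co.TwoWeights

/-! # Upper bound for the even subdivision number -/

set_option autoImplicit false

namespace Pool.Agent.Results.MP_0dbebe_co.TwoWeights

open MP0dbebe

/-- The weight of a path, given as the list of its vertices: the sum of the weights of the pairs of
consecutive vertices. -/
def pathWeight {U : Type*} {q : ℕ} (ω : Sym2 U → ZMod q) (l : List U) : ZMod q :=
  ((l.zip l.tail).map fun p => ω s(p.1, p.2)).sum

/-- `φ` (branch vertices) and `I` (the list of inner vertices of the path of each edge) form a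
`q`-divisible subdivision of `H` in the complete graph on `U` with edge weights `ω`. -/
structure IsDivisibleSubdivision {V U : Type*} {q : ℕ} (H : SimpleGraph V) (ω : Sym2 U → ZMod q)
    (φ : V → U) (I : Sym2 V → List U) : Prop where
  injective : Function.Injective φ
  nodup : ∀ e ∈ H.edgeSet, (I e).Nodup
  avoid : ∀ e ∈ H.edgeSet, ∀ v, φ v ∉ I e
  disjoint : ∀ e ∈ H.edgeSet, ∀ e' ∈ H.edgeSet, e ≠ e' → List.Disjoint (I e) (I e')
  divisible : ∀ e ∈ H.edgeSet, ∃ u v, e = s(u, v) ∧ pathWeight ω (φ u :: (I e ++ [φ v])) = 0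

/-- `s_q(H)`: the least `f` such that every `ZMod q`-edge-weighted `K_f` contains a `q`-divisible
subdivision of `H`. -/
noncomputable def divisibleSubdivisionNumber {V : Type*} (H : SimpleGraph V) (q : ℕ) : ℕ :=
  sInf {f : ℕ | ∀ ω : Sym2 (Fin f) → ZMod q,
    ∃ (φ : V → Fin f) (I : Sym2 V → List (Fin f)), IsDivisibleSubdivision H ω φ I}

theorem pathWeight_one {U : Type*} {q : ℕ} (a : U) (l : List U) :
    pathWeight (q := q) (fun _ => 1) (a :: l) = (l.length : ZMod q) := by
  induction l generalizing a with
  | nil => simp [pathWeight]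
  | cons b l ih =>
    have h1 : pathWeight (q := q) (fun _ => 1) (a :: b :: l) =
        1 + pathWeight (q := q) (fun _ => 1) (b :: l) := by simp [pathWeight]
    rw [h1, ih]
    push_cast [List.length_cons]
    ring

/-- For every graph `H` with `n ≥ 3` vertices and `m` edges,
`m + n ≤ s_2(H) ≤ m + 3 n - 5`. -/
theorem result {V : Type} [Finite V] (H : SimpleGraph V) (hn : 3 ≤ Nat.card V) :
    H.edgeSet.ncard + Nat.card V ≤ divisibleSubdivisionNumber H 2 ∧
      divisibleSubdivisionNumber H 2 ≤ H.edgeSet.ncard + 3 * Nat.card V - 5 := by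
  classical
  have : Fintype V := Fintype.ofFinite V
  have hEu : (EE H Finset.univ).card = H.edgeSet.ncard := by
    rw [← Set.ncard_coe_finset]
    congr 1
    ext e
    rw [Finset.mem_coe, mem_EE]
    simp
  have hmemE : ∀ e, e ∈ H.edgeSet ↔ e ∈ EE H Finset.univ := by
    intro e; rw [mem_EE]; simp
  have hup : H.edgeSet.ncard + 3 * Nat.card V - 5 ∈
      {f : ℕ | ∀ ω : Sym2 (Fin f) → ZMod 2,
        ∃ (φ : V → Fin f) (I : Sym2 V → List (Fin f)), IsDivisibleSubdivision H ω φ I} := by
    intro ω
    obtain ⟨φ, I, m⟩ := twoWeights (w := fun a b => ω s(a, b))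
      (fun a b => by rw [Sym2.eq_swap]) H (by rw [← Nat.card_eq_fintype_card]; exact hn) (by
        rw [hEu, ← Nat.card_eq_fintype_card, Fintype.card_fin]
        omega)
    refine ⟨φ, I, ?_, ?_, ?_, ?_, ?_⟩
    · intro a b hab
      exact m.inj a (Finset.mem_univ _) b (Finset.mem_univ _) hab
    · intro e he
      exact m.nodup e ((hmemE e).1 he)
    · intro e he v
      exact m.avoid e ((hmemE e).1 he) v (Finset.mem_univ _)
    · intro e he e' he' hne a ha ha'
      exact m.disj e ((hmemE e).1 he) e' ((hmemE e').1 he') hne a ha ha'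
    · intro e he
      exact m.div e ((hmemE e).1 he)
  refine ⟨le_csInf ⟨_, hup⟩ ?_, Nat.sInf_le hup⟩
  intro f hf
  obtain ⟨φ, I, h⟩ := hf (fun _ => 1)
  have hlen : ∀ e ∈ H.edgeSet, 1 ≤ (I e).length := by
    intro e he
    obtain ⟨u, v, -, h0⟩ := h.divisible e he
    rw [pathWeight_one] at h0
    rw [List.length_append, List.length_singleton] at h0
    have := (ZMod.natCast_eq_zero_iff _ _).1 h0
    have := Nat.le_of_dvd (by omega) this
    omega
  let T : Finset (Fin f) := Finset.univ.image φ ∪
    (EE H Finset.univ).biUnion (fun e => (I e).toFinset)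
  have hd : Disjoint (Finset.univ.image φ)
      ((EE H Finset.univ).biUnion (fun e => (I e).toFinset)) := by
    rw [Finset.disjoint_left]
    intro a ha hb
    rw [Finset.mem_image] at ha
    obtain ⟨v, -, rfl⟩ := ha
    rw [Finset.mem_biUnion] at hb
    obtain ⟨e, he, h2⟩ := hb
    rw [List.mem_toFinset] at h2
    exact h.avoid e ((hmemE e).2 he) v h2
  have hTc : T.card ≤ f := by
    have := Finset.card_le_univ T
    rwa [Fintype.card_fin] at this
  have h1 : T.card = (Finset.univ.image φ).card +
      ((EE H Finset.univ).biUnion (fun e => (I e).toFinset)).card :=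
    Finset.card_union_of_disjoint hd
  have h2 : (Finset.univ.image φ).card = Nat.card V := by
    rw [Finset.card_image_of_injective _ h.injective, Finset.card_univ,
      Nat.card_eq_fintype_card]
  have h3 : ((EE H Finset.univ).biUnion (fun e => (I e).toFinset)).card =
      ∑ e ∈ EE H Finset.univ, (I e).toFinset.card := by
    apply Finset.card_biUnion
    intro e he e' he' hne
    change Disjoint (I e).toFinset (I e').toFinset
    rw [Finset.disjoint_left]
    intro a ha ha'
    rw [List.mem_toFinset] at ha ha'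
    exact h.disjoint e ((hmemE e).2 he) e' ((hmemE e').2 he') hne ha ha'
  have h4 : (EE H Finset.univ).card * 1 ≤ ∑ e ∈ EE H Finset.univ, (I e).toFinset.card := by
    rw [← smul_eq_mul]
    apply Finset.card_nsmul_le_sum
    intro e he
    rw [List.toFinset_card_of_nodup (h.nodup e ((hmemE e).2 he))]
    exact hlen e ((hmemE e).2 he)
  rw [hEu] at h4
  omega

end Pool.Agent.Results.MP_0dbebe_co.TwoWeights
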